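import Pool.Agent.X318.LineSum

/-!
# Sums of powers of multinomial coefficients modulo `m n`

With `(m+1) k + m = ∑_i (x_i + k + 1)` for `x_1 + ⋯ + x_m = k` and the symmetry of the multinomial
coefficients, the sum is `m` times a sum with the weight `x_1 + k + 1`. For fixed `x_2, …, x_m` with
sum `y` the multinomial coefficient is `C(k,y)` times a constant and the weight is `2k - y + 1`, and
the sum over `k` is divisible by `n`.
-/

set_option autoImplicit false

open Finset

namespace Pool.Agent.Results.MP_cbe697_nt.MultinomialPowerSums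

/-- The sum of the `r`-th powers of the multinomial coefficients `n! / (k_1! ⋯ k_m!)` over all
tuples of natural numbers with sum `n`. -/
def M (m n r : ℕ) : ℕ := ∑ x ∈ piAntidiag (univ : Finset (Fin m)) n, Nat.multinomial univ x ^ r

/-- The weighted alternating sum. -/
def S (m n r : ℕ) : ℤ :=
  ∑ k ∈ range n, (-1 : ℤ) ^ (r * k) * (((m : ℤ) + 1) * k + m) * (M m k r : ℤ)

/-- Permuting the entries. -/
lemma perm_sum (m k r : ℕ) (i j : Fin m) :
    ∑ x ∈ piAntidiag (univ : Finset (Fin m)) k, ((x i : ℤ) + k + 1) *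
      (Nat.multinomial univ x : ℤ) ^ r =
    ∑ x ∈ piAntidiag (univ : Finset (Fin m)) k, ((x j : ℤ) + k + 1) *
      (Nat.multinomial univ x : ℤ) ^ r := by
  have hmul : ∀ x : Fin m → ℕ, Nat.multinomial univ (x ∘ Equiv.swap i j) =
      Nat.multinomial univ x := by
    intro x
    unfold Nat.multinomial
    have h1 : ∑ l, (x ∘ Equiv.swap i j) l = ∑ l, x l := Equiv.sum_comp (Equiv.swap i j) x
    have h2 : ∏ l, ((x ∘ Equiv.swap i j) l).factorial = ∏ l, (x l).factorial :=
      Equiv.prod_comp (Equiv.swap i j) fun l => (x l).factorial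
    rw [h1, h2]
  have hmem : ∀ x ∈ piAntidiag (univ : Finset (Fin m)) k,
      x ∘ Equiv.swap i j ∈ piAntidiag (univ : Finset (Fin m)) k := by
    intro x hx
    rw [mem_piAntidiag] at hx ⊢
    refine ⟨?_, fun _ _ => mem_univ _⟩
    rw [← hx.1]
    exact Equiv.sum_comp (Equiv.swap i j) x
  have hinv : ∀ x : Fin m → ℕ, (x ∘ Equiv.swap i j) ∘ Equiv.swap i j = x := by
    intro x
    ext l
    simp
  refine sum_bij' (fun x _ => x ∘ Equiv.swap i j) (fun x _ => x ∘ Equiv.swap i j) hmem hmem
    (fun x _ => hinv x) (fun x _ => hinv x) fun x _ => ?_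
  rw [hmul, Function.comp_apply, Equiv.swap_apply_right]

/-- Splitting the first entry. -/
lemma cons_multinomial (m a y : ℕ) (x : Fin m → ℕ) (hx : ∑ i, x i = y) :
    Nat.multinomial univ (Fin.cons a x : Fin (m + 1) → ℕ) =
      (a + y).choose y * Nat.multinomial univ x := by
  have h1 := Nat.multinomial_spec (univ : Finset (Fin (m + 1))) (Fin.cons a x : Fin (m + 1) → ℕ)
  have h2 := Nat.multinomial_spec (univ : Finset (Fin m)) x
  have h3 := Nat.choose_mul_factorial_mul_factorial (Nat.le_add_left y a)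
  rw [Fin.prod_univ_succ, Fin.sum_univ_succ] at h1
  simp only [Fin.cons_zero, Fin.cons_succ] at h1
  rw [hx] at h1 h2
  rw [Nat.add_sub_cancel] at h3
  have hpos : 0 < a.factorial * ∏ i, (x i).factorial :=
    Nat.mul_pos (Nat.factorial_pos _) (prod_pos fun i _ => Nat.factorial_pos _)
  apply Nat.eq_of_mul_eq_mul_left hpos
  rw [h1, ← h3, ← h2]
  ring

lemma split (m k : ℕ) (F : (Fin (m + 1) → ℕ) → ℤ) :
    ∑ x ∈ piAntidiag (univ : Finset (Fin (m + 1))) k, F x =
    ∑ y ∈ range (k + 1), ∑ x ∈ piAntidiag (univ : Finset (Fin m)) y, F (Fin.cons (k - y) x) := by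
  rw [sum_sigma']
  refine sum_bij' (fun x _ => ⟨k - x 0, Fin.tail x⟩) (fun p _ => Fin.cons (k - p.1) p.2)
    ?_ ?_ ?_ ?_ ?_
  · intro x hx
    rw [mem_piAntidiag, Fin.sum_univ_succ] at hx
    rw [mem_sigma, mem_range, mem_piAntidiag]
    dsimp only
    refine ⟨by omega, ?_, fun _ _ => mem_univ _⟩
    change ∑ i, x (Fin.succ i) = k - x 0
    omega
  · rintro ⟨y, x⟩ hp
    rw [mem_sigma, mem_range, mem_piAntidiag] at hp
    obtain ⟨h1, h2, -⟩ := hp
    dsimp only at h1 h2 ⊢
    rw [mem_piAntidiag, Fin.sum_univ_succ]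
    refine ⟨?_, fun _ _ => mem_univ _⟩
    simp only [Fin.cons_zero, Fin.cons_succ]
    rw [h2]
    omega
  · intro x hx
    rw [mem_piAntidiag, Fin.sum_univ_succ] at hx
    dsimp only
    rw [show k - (k - x 0) = x 0 by omega]
    exact Fin.cons_self_tail x
  · rintro ⟨y, x⟩ hp
    rw [mem_sigma, mem_range] at hp
    have h1 : y < k + 1 := hp.1
    dsimp only
    rw [Fin.tail_cons, Fin.cons_zero, show k - (k - y) = y by omega]
  · intro x hx
    rw [mem_piAntidiag, Fin.sum_univ_succ] at hx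
    dsimp only
    rw [show k - (k - x 0) = x 0 by omega, Fin.cons_self_tail]

/-- The line sums, with the convention that the terms with `k < y` are left out. -/
lemma line (y r n : ℕ) (hy : y < n) : (n : ℤ) ∣ ∑ k ∈ range n,
    if y ≤ k then (-1 : ℤ) ^ (r * k) * (2 * (k : ℤ) - y + 1) * (k.choose y : ℤ) ^ r else 0 := by
  rcases Nat.eq_zero_or_pos r with rfl | hr
  · have h : ∀ a : ℕ, ∑ k ∈ range (y + a), (if y ≤ k then (-1 : ℤ) ^ (0 * k) *
        (2 * (k : ℤ) - y + 1) * (k.choose y : ℤ) ^ 0 else 0) = ((y : ℤ) + a) * a := by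
      intro a
      induction a with
      | zero =>
        rw [add_zero]
        push_cast
        rw [mul_zero]
        refine sum_eq_zero fun k hk => ?_
        rw [if_neg (by
          have := mem_range.1 hk
          omega)]
      | succ a ih =>
        rw [← add_assoc, sum_range_succ, ih, if_pos (by omega)]
        push_cast
        ring
    obtain ⟨a, rfl⟩ : ∃ a, n = y + a := ⟨n - y, by omega⟩
    rw [h]
    exact ⟨a, by push_cast; ring⟩
  · have h := Pool.Agent.X318.LineSum.line_sum y r n hr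
    have h1 : ∀ k ∈ range n, (if y ≤ k then (-1 : ℤ) ^ (r * k) * (2 * (k : ℤ) - y + 1) *
        (k.choose y : ℤ) ^ r else 0) =
        (-1 : ℤ) ^ (r * k) * (2 * (k : ℤ) - y + 1) * (k.choose y : ℤ) ^ r := by
      intro k _
      split_ifs with hk
      · rfl
      · rw [Nat.choose_eq_zero_of_lt (show k < y by omega), Nat.cast_zero, zero_pow (by omega),
          mul_zero]
    rwa [sum_congr rfl h1]

/-- For all `m ≥ 1`, `n ≥ 1` and `r ≥ 0` the number `m n` divides the weighted alternating sum of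
the sums of `r`-th powers of multinomial coefficients. -/
theorem result (m n r : ℕ) (hm : 1 ≤ m) (_hn : 1 ≤ n) : ((m : ℤ) * n) ∣ S m n r := by
  obtain ⟨m, rfl⟩ : ∃ l, m = l + 1 := ⟨m - 1, by omega⟩
  -- the symmetry
  have h1 : ∀ k : ℕ, ((((m + 1 : ℕ) : ℤ) + 1) * k + ((m + 1 : ℕ) : ℤ)) * (M (m + 1) k r : ℤ) =
      ((m + 1 : ℕ) : ℤ) * ∑ x ∈ piAntidiag (univ : Finset (Fin (m + 1))) k,
        ((x 0 : ℤ) + k + 1) * (Nat.multinomial univ x : ℤ) ^ r := by
    intro k
    have h2 : ∑ i : Fin (m + 1), ∑ x ∈ piAntidiag (univ : Finset (Fin (m + 1))) k,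
        ((x i : ℤ) + k + 1) * (Nat.multinomial univ x : ℤ) ^ r =
        ((m + 1 : ℕ) : ℤ) * ∑ x ∈ piAntidiag (univ : Finset (Fin (m + 1))) k,
          ((x 0 : ℤ) + k + 1) * (Nat.multinomial univ x : ℤ) ^ r := by
      rw [sum_congr rfl fun i _ => perm_sum (m + 1) k r i 0, sum_const, card_univ, Fintype.card_fin,
        nsmul_eq_mul]
    rw [← h2, sum_comm, M, Nat.cast_sum, mul_sum]
    refine sum_congr rfl fun x hx => ?_
    rw [mem_piAntidiag] at hx
    rw [← sum_mul, Nat.cast_pow]
    congr 1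
    rw [sum_add_distrib, sum_add_distrib, sum_const, sum_const, card_univ, Fintype.card_fin,
      ← Nat.cast_sum, hx.1]
    simp only [nsmul_eq_mul, mul_one]
    push_cast
    ring
  have h3 : S (m + 1) n r = ((m + 1 : ℕ) : ℤ) * ∑ k ∈ range n, (-1 : ℤ) ^ (r * k) *
      ∑ x ∈ piAntidiag (univ : Finset (Fin (m + 1))) k,
        ((x 0 : ℤ) + k + 1) * (Nat.multinomial univ x : ℤ) ^ r := by
    unfold S
    rw [mul_sum]
    refine sum_congr rfl fun k _ => ?_
    rw [mul_assoc, h1]
    ring
  rw [h3]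
  refine mul_dvd_mul_left _ ?_
  -- the splitting
  have h4 : ∑ k ∈ range n, (-1 : ℤ) ^ (r * k) *
      ∑ x ∈ piAntidiag (univ : Finset (Fin (m + 1))) k,
        ((x 0 : ℤ) + k + 1) * (Nat.multinomial univ x : ℤ) ^ r =
      ∑ y ∈ range n, ∑ x ∈ piAntidiag (univ : Finset (Fin m)) y,
        (Nat.multinomial univ x : ℤ) ^ r * ∑ k ∈ range n,
          if y ≤ k then (-1 : ℤ) ^ (r * k) * (2 * (k : ℤ) - y + 1) * (k.choose y : ℤ) ^ r
          else 0 := by
    simp_rw [mul_sum]
    rw [sum_congr rfl fun y _ => sum_comm]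
    rw [sum_comm (s := range n) (t := range n)]
    refine sum_congr rfl fun k hk => ?_
    have hk' := mem_range.1 hk
    rw [split]
    refine Eq.trans ?_ (sum_subset (s₁ := range (k + 1)) (s₂ := range n)
      (range_subset_range.2 (by omega)) ?_)
    · refine sum_congr rfl fun y hy => ?_
      have hy' : y ≤ k := Nat.lt_succ_iff.1 (mem_range.1 hy)
      refine sum_congr rfl fun x hx => ?_
      rw [mem_piAntidiag] at hx
      rw [if_pos hy', cons_multinomial m (k - y) y x hx.1, Fin.cons_zero, Nat.sub_add_cancel hy',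
        Nat.cast_sub hy']
      push_cast
      ring
    · intro y _ hy
      rw [mem_range, not_lt] at hy
      refine sum_eq_zero fun x _ => ?_
      rw [if_neg (by omega), mul_zero]
  rw [h4]
  refine dvd_sum fun y hy => dvd_sum fun x _ => ?_
  exact (line y r n (mem_range.1 hy)).mul_left _

end Pool.Agent.Results.MP_cbe697_nt.MultinomialPowerSums
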